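import Mathlib
import Pool.Agent.Helper96.LB3.Stmts

/-!
# POS: the body is compact, convex, of positive finite volume
-/

open MeasureTheory Module Set
open scoped ENNReal

namespace Pool.Agent.Helper99.LB3

open Pool.Agent.Helper96.LB3

section

variable {X ι : Type} [NormedAddCommGroup X] [NormedSpace ℝ X] [FiniteDimensional ℝ X]

theorem cont_fun (φ : ι → X →ₗ[ℝ] ℝ) (u : ι) : Continuous fun x => |φ u x| :=
  continuous_abs.comp (LinearMap.continuous_of_finiteDimensional (φ u))

theorem KS_isCompact [Fintype ι] (φ : ι → X →ₗ[ℝ] ℝ) (h : ι → ℝ) (hs : Sep φ) :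
    IsCompact (KS φ h) := by
  have hker : LinearMap.ker (LinearMap.pi φ) = ⊥ := by
    rw [LinearMap.ker_eq_bot']
    intro x hx
    refine hs x (fun u => ?_)
    have := congrFun hx u
    simpa using this
  have hemb := LinearMap.isClosedEmbedding_of_injective hker
  have hK : KS φ h = (LinearMap.pi φ) ⁻¹' (Set.pi univ fun u => Icc (-h u) (h u)) := by
    ext x
    simp only [KS, mem_ofPred_eq, mem_preimage, Set.mem_pi, mem_univ, true_implies, mem_Icc,
      LinearMap.pi_apply, abs_le]
  rw [hK]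
  exact hemb.isCompact_preimage (isCompact_univ_pi fun u => isCompact_Icc)

omit [FiniteDimensional ℝ X] in
theorem KS_convex (φ : ι → X →ₗ[ℝ] ℝ) (h : ι → ℝ) : Convex ℝ (KS φ h) := by
  intro x hx y hy a b ha hb hab u
  have h1 := hx u
  have h2 := hy u
  rw [map_add, map_smul, map_smul, smul_eq_mul, smul_eq_mul]
  calc |a * φ u x + b * φ u y| ≤ |a * φ u x| + |b * φ u y| := abs_add_le _ _
    _ = a * |φ u x| + b * |φ u y| := by rw [abs_mul, abs_mul, abs_of_nonneg ha, abs_of_nonneg hb]
    _ ≤ a * h u + b * h u := by gcongr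
    _ = h u := by rw [← add_mul, hab, one_mul]

theorem KS_nhds [Fintype ι] (φ : ι → X →ₗ[ℝ] ℝ) (h : ι → ℝ) (hh : ∀ u, 0 < h u) :
    KS φ h ∈ nhds (0 : X) := by
  have ho : IsOpen {x : X | ∀ u, |φ u x| < h u} := by
    have : {x : X | ∀ u, |φ u x| < h u} = ⋂ u, {x : X | |φ u x| < h u} := by
      ext x; simp
    rw [this]
    exact isOpen_iInter_of_finite fun u => isOpen_lt (cont_fun φ u) continuous_const
  refine Filter.mem_of_superset (ho.mem_nhds ?_) ?_
  · intro u
    simpa using hh u
  · intro x hx u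
    exact (hx u).le

end

theorem st_POS : ST_POS := by
  intro X ι _ _ _ _ _ μ _ _ φ h hs hh
  have hc := KS_isCompact φ h hs
  have hfin : μ (KS φ h) < ∞ := hc.measure_lt_top
  refine ⟨hc, KS_convex φ h, ?_, hfin⟩
  have hpos : 0 < μ (KS φ h) := Measure.measure_pos_of_mem_nhds μ (KS_nhds φ h hh)
  exact ENNReal.toReal_pos hpos.ne' hfin.ne

end Pool.Agent.Helper99.LB3
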