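import Mathlib
import Pool.Agent.Helper96.LB3.Stmts
import Pool.Agent.Helper99.LB3.POS

/-!
# TIG: tightening
-/

open MeasureTheory Module Set
open scoped ENNReal

namespace Pool.Agent.Helper99.LB3

open Pool.Agent.Helper96.LB3

theorem st_TIG : ST_TIG := by
  intro X ι _ _ _ _ _ _ φ h hs hφ hh
  have hc := KS_isCompact φ h hs
  have h0 : (0 : X) ∈ KS φ h := by
    intro u
    simpa using (hh u).le
  have hne : (KS φ h).Nonempty := ⟨0, h0⟩
  -- maximisers
  have hmax : ∀ u, ∃ x ∈ KS φ h, ∀ y ∈ KS φ h, φ u y ≤ φ u x := by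
    intro u
    obtain ⟨x, hx, hx'⟩ := hc.exists_isMaxOn hne
      (LinearMap.continuous_of_finiteDimensional (φ u)).continuousOn
    exact ⟨x, hx, fun y hy => hx' hy⟩
  choose x hx hxm using hmax
  have hneg : ∀ y ∈ KS φ h, -y ∈ KS φ h := by
    intro y hy u
    rw [map_neg, abs_neg]
    exact hy u
  refine ⟨fun u => φ u (x u), ?_, ?_, ?_, ?_⟩
  · intro u
    -- some vector with positive value
    obtain ⟨v, hv⟩ : ∃ v, 0 < φ u v := by
      by_contra hcon
      push Not at hcon
      apply hφ u
      ext w
      have h1 := hcon w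
      have h2 := hcon (-w)
      rw [map_neg] at h2
      simp only [LinearMap.zero_apply]
      linarith
    have hnh := KS_nhds φ h hh
    have htend : Filter.Tendsto (fun t : ℝ => t • v) (nhdsWithin 0 (Ioi 0)) (nhds 0) := by
      have : Filter.Tendsto (fun t : ℝ => t • v) (nhds 0) (nhds ((0 : ℝ) • v)) :=
        (continuous_id.smul continuous_const).tendsto 0
      rw [zero_smul] at this
      exact this.mono_left nhdsWithin_le_nhds
    have hev := htend.eventually hnh
    obtain ⟨t, ht, ht0⟩ := (hev.and self_mem_nhdsWithin).exists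
    have h3 := hxm u (t • v) ht
    rw [map_smul, smul_eq_mul] at h3
    have ht0' : (0 : ℝ) < t := ht0
    exact lt_of_lt_of_le (mul_pos ht0' hv) h3
  · intro u
    exact (le_abs_self _).trans (hx u u)
  · ext y
    constructor
    · intro hy u
      exact (hy u).trans ((le_abs_self _).trans (hx u u))
    · intro hy u
      refine abs_le.2 ⟨?_, hxm u y hy⟩
      have := hxm u (-y) (hneg y hy)
      rw [map_neg] at this
      linarith
  · intro u
    refine ⟨x u, ?_, rfl⟩
    intro v
    refine abs_le.2 ⟨?_, hxm v (x u) (hx u)⟩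
    have := hxm v (-(x u)) (hneg _ (hx u))
    rw [map_neg] at this
    linarith

end Pool.Agent.Helper99.LB3
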